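import Pool.Agent.Helper54.SL.Defs

/-!
# SL-9: every orbit of roots meets the line of the small root (MP_63a9db_ag)

The norm of a nonzero root is a unit of the ring of polynomials, hence a constant.
-/

set_option autoImplicit false
set_option linter.unusedVariables false
set_option linter.unusedSectionVars false
open scoped Pointwise
open Pool.Agent.Helper54.PW

namespace Pool.Agent.Helper54.SL

section Inf
variable {p n : ℕ} [Fact p.Prime] {k L : Type} [Field k] [IsAlgClosed k] [CharP k p] [Field L]
  [Algebra k L] [Algebra (RatFunc k) L] [IsScalarTower k (RatFunc k) L]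

theorem orbit [FiniteDimensional (RatFunc k) L] [IsGalois (RatFunc k) L] (hn : 0 < n) (c : ℕ → k)
    (A : ValuationSubring L) (hA : IsPlace k A) (hX : tX k L ∉ A) (y0 : L)
    (hbig : ∀ y, Rt (p ^ n) (pk k L (TP p n c)) y → (∀ a : L, a ^ (p ^ n) = a → y ≠ a * y0) → y ∉ A)
    (y : L) (hy : Rt (p ^ n) (pk k L (TP p n c)) y) (hy0 : y ≠ 0) :
    ∃ (σ : L ≃ₐ[RatFunc k] L) (a : L), a ^ (p ^ n) = a ∧ σ y = a * y0 := by
  classical
  by_contra hcon
  push Not at hcon
  have hq2 : 2 ≤ p ^ n := by
    have h1 : 2 ≤ p := (Fact.out : p.Prime).two_le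
    calc 2 ≤ p := h1
      _ = p ^ 1 := (pow_one p).symm
      _ ≤ p ^ n := Nat.pow_le_pow_right (by omega) hn
  set q := p ^ n with hq
  set T := pk k L (TP p n c) with hT
  -- the roots `σ y` are large
  have hsig : ∀ σ : L ≃ₐ[RatFunc k] L, Rt q T (σ y) := by
    intro σ
    have hσT : σ T = T := σ.commutes _
    unfold Rt at hy ⊢
    have := congrArg σ hy
    rw [map_add, map_sub, map_mul, map_pow, map_pow, map_zero, hσT] at this
    exact this
  have hlarge : ∀ σ : L ≃ₐ[RatFunc k] L, 1 < A.valuation (σ y) := by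
    intro σ
    have h1 := hbig (σ y) (hsig σ) (fun a ha => hcon σ a ha)
    rw [← A.valuation_le_one_iff] at h1
    exact not_le.mp h1
  -- the norm
  let _ : Algebra (Polynomial k) L := (pk k L).toAlgebra
  have : IsScalarTower (Polynomial k) (RatFunc k) L := IsScalarTower.of_algebraMap_eq fun _ => rfl
  have hTint : IsIntegral (Polynomial k) T := by
    rw [hT]
    exact isIntegral_algebraMap (R := Polynomial k) (A := L) (x := TP p n c)
  have hyint : IsIntegral (Polynomial k) y := by
    have hmon : (Polynomial.X ^ (q ^ 2) + (- Polynomial.C (TP p n c) * Polynomial.X ^ q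
        + Polynomial.X) : Polynomial (Polynomial k)).Monic := by
      apply Polynomial.monic_X_pow_add
      have hlt : q < q ^ 2 := by nlinarith
      refine lt_of_le_of_lt (Polynomial.degree_add_le _ _) ?_
      rw [max_lt_iff]
      constructor
      · rw [← Polynomial.C_neg]
        refine lt_of_le_of_lt (Polynomial.degree_C_mul_X_pow_le _ _) ?_
        exact_mod_cast hlt
      · refine lt_of_le_of_lt Polynomial.degree_X_le ?_
        have : 1 < q ^ 2 := by nlinarith
        exact_mod_cast this
    refine ⟨_, hmon, ?_⟩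
    simp only [Polynomial.eval₂_add, Polynomial.eval₂_mul, Polynomial.eval₂_pow, Polynomial.eval₂_X,
      Polynomial.eval₂_neg, Polynomial.eval₂_C]
    unfold Rt at hy
    have h2 : algebraMap (Polynomial k) L (TP p n c) = T := rfl
    rw [h2]
    linear_combination hy
  have hinv : y⁻¹ = - (y ^ (q ^ 2 - 2) - T * y ^ (q - 2)) := by
    have h1 : y * y ^ (q ^ 2 - 2) * y = y ^ (q ^ 2) := by
      rw [← pow_succ', ← pow_succ]
      congr 1
      have : 2 ≤ q ^ 2 := by nlinarith
      omega
    have h2 : y * y ^ (q - 2) * y = y ^ q := by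
      rw [← pow_succ', ← pow_succ]
      congr 1
      omega
    unfold Rt at hy
    have h3 : y * (- (y ^ (q ^ 2 - 2) - T * y ^ (q - 2))) * y = 1 * y := by
      linear_combination (-1 : L) * h1 + T * h2 - hy
    have h4 := mul_right_cancel₀ hy0 h3
    exact inv_eq_of_mul_eq_one_right h4
  have hyinvint : IsIntegral (Polynomial k) y⁻¹ := by
    rw [hinv]
    exact ((hyint.pow _).sub (hTint.mul (hyint.pow _))).neg
  have hN1 : IsIntegral (Polynomial k) (Algebra.norm (RatFunc k) y) :=
    Algebra.isIntegral_norm (RatFunc k) hyint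
  have hN2 : IsIntegral (Polynomial k) (Algebra.norm (RatFunc k) y⁻¹) :=
    Algebra.isIntegral_norm (RatFunc k) hyinvint
  obtain ⟨f, hf⟩ := IsIntegrallyClosed.isIntegral_iff.mp hN1
  obtain ⟨g, hg⟩ := IsIntegrallyClosed.isIntegral_iff.mp hN2
  have hfg : f * g = 1 := by
    apply IsFractionRing.injective (Polynomial k) (RatFunc k)
    rw [map_mul, hf, hg, ← map_mul, mul_inv_cancel₀ hy0, map_one, map_one]
  have hfu : IsUnit f := IsUnit.of_mul_eq_one _ hfg
  obtain ⟨e, he, hef⟩ := Polynomial.isUnit_iff.mp hfu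
  have hprod : algebraMap (RatFunc k) L (Algebra.norm (RatFunc k) y) =
      ∏ σ : L ≃ₐ[RatFunc k] L, σ y := Algebra.norm_eq_prod_automorphisms (RatFunc k) y
  have hmem : algebraMap (RatFunc k) L (Algebra.norm (RatFunc k) y) ∈ A := by
    rw [← hf, ← hef]
    have h1 : algebraMap (RatFunc k) L (algebraMap (Polynomial k) (RatFunc k) (Polynomial.C e)) =
        algebraMap k L e := by
      rw [IsScalarTower.algebraMap_apply k (RatFunc k) L]
      rfl
    rw [h1]
    exact hA.2 e
  have hgt : 1 < A.valuation (∏ σ : L ≃ₐ[RatFunc k] L, σ y) := by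
    rw [map_prod]
    refine Finset.prod_induction_nonempty (fun σ : L ≃ₐ[RatFunc k] L => A.valuation (σ y))
      (fun x => 1 < x) ?_ ⟨1, Finset.mem_univ _⟩ (fun σ _ => hlarge σ)
    intro a b ha hb
    exact one_lt_mul'' ha hb
  rw [← hprod] at hgt
  rw [← A.valuation_le_one_iff] at hmem
  exact absurd hgt (not_lt.mpr hmem)

end Inf

end Pool.Agent.Helper54.SL
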